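import Mathlib

/-!
# At least three prime factors besides `3` (MP_bdd3c1_nt)
-/

set_option autoImplicit false

namespace Pool.Agent.H22.BDD.Three

/-- a number `2 mod 3` has a prime factor `2 mod 3` -/
theorem prime_two (s : ℕ) : s % 3 = 2 → ∃ p, p.Prime ∧ p ∣ s ∧ p % 3 = 2 := by
  induction s using Nat.strong_induction_on with
  | _ s ih =>
    intro hs
    have hs1 : s ≠ 1 := by omega
    obtain ⟨p, hp, hps⟩ := Nat.exists_prime_and_dvd hs1
    by_cases h3 : p % 3 = 2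
    · exact ⟨p, hp, hps, h3⟩
    obtain ⟨r, hr⟩ := hps
    have hp1 : p % 3 = 1 := by
      by_contra hc
      have h5 : p % 3 = 0 := by omega
      have h7 : s % 3 = 0 := by rw [hr, Nat.mul_mod, h5]; simp
      omega
    have hr3 : r % 3 = 2 := by
      rw [hr, Nat.mul_mod, hp1, one_mul, Nat.mod_mod] at hs
      exact hs
    have hlt : r < s := by
      rw [hr]
      have := hp.two_le
      nlinarith [Nat.pos_of_ne_zero (show r ≠ 0 by rintro rfl; omega)]
    obtain ⟨q, hq, hqr, hq3⟩ := ih r hlt hr3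
    exact ⟨q, hq, hqr.trans ⟨p, by rw [hr, mul_comm]⟩, hq3⟩

/-- divisors of `M² + M + 1` are not `2 mod 3` -/
theorem cyc (M u : ℕ) (h : u ∣ M ^ 2 + M + 1) : u % 3 ≠ 2 := by
  intro hu
  obtain ⟨r, hr, hru, hr3⟩ := prime_two u hu
  have hrM := hru.trans h
  have hF : Fact r.Prime := ⟨hr⟩
  have h1 : ((M : ZMod r)) ^ 2 + M + 1 = 0 := by
    have h2 := (ZMod.natCast_eq_zero_iff (M ^ 2 + M + 1) r).2 hrM
    push_cast at h2
    exact h2
  have hM0 : (M : ZMod r) ≠ 0 := by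
    intro h2
    rw [h2] at h1
    simp at h1
  have h3 : (M : ZMod r) ^ 3 = 1 := by linear_combination ((M : ZMod r) - 1) * h1
  have h4 : (M : ZMod r) ^ (r - 1) = 1 := ZMod.pow_card_sub_one_eq_one hM0
  obtain ⟨j, hj⟩ : ∃ j, r - 1 = 3 * j + 1 := ⟨(r - 2) / 3, by omega⟩
  rw [hj, pow_succ, pow_mul, h3, one_pow, one_mul] at h4
  rw [h4] at h1
  have h5 : ((3 : ℕ) : ZMod r) = 0 := by
    push_cast
    linear_combination h1
  have h6 := (ZMod.natCast_eq_zero_iff 3 r).1 h5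
  have h7 := (Nat.prime_dvd_prime_iff_eq hr Nat.prime_three).1 h6
  omega

/-- first inequalities -/
theorem low (M P X' Y U V Q : ℤ) (hM : 0 ≤ M) (hP : 2 ≤ P) (hQ : 2 ≤ Q) (hX : 1 ≤ X')
    (hY : Q ≤ Y) (hU : (P - 1) * U = P * (P * X') - 1) (hV : (Q - 1) * V = Q * Y - 1)
    (hE : M * (U * V) + 1 = (M + 1) * (P * X' * Y)) : M < P := by
  have h1 : P * X' + X' ≤ U := by
    have h2 : (P - 1) * (P * X' + X') ≤ (P - 1) * U := by rw [hU]; nlinarith
    exact le_of_mul_le_mul_left h2 (by linarith)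
  have h2 : Y + 1 ≤ V := by
    have h3 : (Q - 1) * (Y + 1) ≤ (Q - 1) * V := by rw [hV]; nlinarith
    exact le_of_mul_le_mul_left h3 (by linarith)
  have hU0 : 0 < P * X' + X' := by positivity
  have h4 : (P * X' + X') * Y ≤ U * V := by
    apply mul_le_mul h1 (by linarith) (by linarith) (by linarith)
  have h5 : M * ((P * X' + X') * Y) ≤ M * (U * V) := mul_le_mul_of_nonneg_left h4 hM
  have hXY : 0 < X' * Y := by
    have : 0 < Y := by linarith
    positivity
  have h6 : M * (X' * Y) < P * (X' * Y) := by nlinarith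
  exact lt_of_mul_lt_mul_right h6 hXY.le

/-- the master identity and its consequences -/
theorem core (M P Q X Y U V : ℤ) (hM : 2 ≤ M) (hP : M + 3 ≤ P) (hPQ : P < Q) (hX : P ≤ X)
    (hY : Q ≤ Y) (hU : (P - 1) * U = P * X - 1) (hV : (Q - 1) * V = Q * Y - 1)
    (hE : M * (U * V) + 1 = (M + 1) * (X * Y)) :
    1 ≤ (M + 1) * (P + Q - 1) - P * Q ∧
    ((M + 1) * (P + Q - 1) - P * Q) * (X * Y) + M + (P - 1) * (Q - 1) = M * (P * X + Q * Y) ∧
    2 * Q < (M + 1) * (M + 2) := by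
  have e1 : M * (((P - 1) * U) * ((Q - 1) * V)) + (P - 1) * (Q - 1) =
      (M + 1) * (X * Y) * ((P - 1) * (Q - 1)) := by
    linear_combination ((P - 1) * (Q - 1)) * hE
  rw [hU, hV] at e1
  have e2 : ((M + 1) * (P + Q - 1) - P * Q) * (X * Y) + M + (P - 1) * (Q - 1) =
      M * (P * X + Q * Y) := by linear_combination e1
  have hX0 : 0 < X := by linarith
  have hY0 : 0 < Y := by linarith
  have hXY : 0 < X * Y := mul_pos hX0 hY0
  have h1 : M + (P - 1) * (Q - 1) < M * (P * X + Q * Y) := by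
    have h2 : P * P ≤ P * X := mul_le_mul_of_nonneg_left hX (by linarith)
    have h3 : Q * Q ≤ Q * Y := mul_le_mul_of_nonneg_left hY (by linarith)
    have h4 : P * Q < P * P + Q * Q := by nlinarith
    nlinarith
  have h2 : 0 < ((M + 1) * (P + Q - 1) - P * Q) * (X * Y) := by linarith
  have h3 : 0 < (M + 1) * (P + Q - 1) - P * Q := (mul_pos_iff_of_pos_right hXY).1 h2
  refine ⟨by linarith, e2, ?_⟩
  have h4 : (P - M - 1) * (Q - M - 1) < (M + 1) * M := by nlinarith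
  have h5 : 2 * (Q - M - 1) ≤ (P - M - 1) * (Q - M - 1) :=
    mul_le_mul_of_nonneg_right (by linarith) (by linarith)
  nlinarith

/-- `b ≥ 3`, `c ≥ 2` -/
theorem c32 (M P Q X Y U V : ℤ) (hM : 2 ≤ M) (hP : M + 3 ≤ P) (hPQ : P < Q) (hX : P ≤ X)
    (hY : Q ≤ Y) (hU : (P - 1) * U = P * X - 1) (hV : (Q - 1) * V = Q * Y - 1)
    (hE : M * (U * V) + 1 = (M + 1) * (X * Y)) (h2 : 2 ≤ (M + 1) * (P + Q - 1) - P * Q)
    (hX3 : P ^ 3 ≤ X) (hY2 : Q ^ 2 ≤ Y) : False := by
  obtain ⟨-, e2, h3⟩ := core M P Q X Y U V hM hP hPQ hX hY hU hV hE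
  have hX0 : 0 < X := by linarith
  have hY0 : 0 < Y := by linarith
  have hXY : 0 < X * Y := mul_pos hX0 hY0
  have h4 : M * P < Y := by nlinarith
  have h5 : M * Q < X := by
    have h6 : 2 * (M * Q) < 2 * P ^ 3 := by
      have h7 : M * (2 * Q) < M * ((M + 1) * (M + 2)) := mul_lt_mul_of_pos_left h3 (by linarith)
      have h8 : (M + 3) ^ 3 ≤ P ^ 3 := pow_le_pow_left₀ (by linarith) hP 3
      nlinarith
    linarith
  have h6 : M * P * X < X * Y := by nlinarith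
  have h7 : M * Q * Y < X * Y := mul_lt_mul_of_pos_right h5 hY0
  have h8 : 2 * (X * Y) ≤ ((M + 1) * (P + Q - 1) - P * Q) * (X * Y) :=
    mul_le_mul_of_nonneg_right h2 hXY.le
  have h9 : 0 < (P - 1) * (Q - 1) := mul_pos (by linarith) (by linarith)
  nlinarith

/-- `b = 1`, `c ≥ 2` -/
theorem c12 (M P Q Y V : ℤ) (hM : 2 ≤ M) (hP : M + 3 ≤ P) (hPQ : P < Q)
    (hV : (Q - 1) * V = Q * Y - 1) (hE : M * ((P + 1) * V) + 1 = (M + 1) * (P * Y))
    (h3 : 2 * Q < (M + 1) * (M + 2)) (hY2 : Q ^ 2 ≤ Y) : False := by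
  have e : Y * (M * (P + 1) * Q - (M + 1) * P * (Q - 1)) = M * (P + 1) - Q + 1 := by
    linear_combination (Q - 1) * hE - M * (P + 1) * hV
  obtain ⟨W, hW⟩ : ∃ W, W = M * (P + 1) * Q - (M + 1) * P * (Q - 1) := ⟨_, rfl⟩
  rw [← hW] at e
  have hY0 : 0 < Y := by nlinarith
  have hQY : Q ≤ Y := by nlinarith
  have h4 : M * (P + 1) < Q ^ 2 := by nlinarith
  rcases lt_trichotomy W 0 with h | h | h
  · have h5 : Y * W ≤ -Y := by nlinarith
    have h6 : 0 < M * (P + 1) := mul_pos (by linarith) (by linarith)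
    linarith
  · rw [h, mul_zero] at e
    rw [h] at hW
    have h5 : (Q - 1) * (Q - (M + 1) * P) = 0 := by
      have h6 : M * (P + 1) = Q - 1 := by linarith
      linear_combination (-1 : ℤ) * hW - Q * h6
    rcases mul_eq_zero.1 h5 with h6 | h6
    · linarith
    · have h7 : Q = (M + 1) * P := by linarith
      rw [h7] at h3
      nlinarith
  · have h5 : Y ≤ Y * W := by nlinarith
    linarith

/-- `b ≥ 3`, `c = 1` -/
theorem c31 (M P Q X U : ℤ) (hM : 2 ≤ M) (hP : M + 3 ≤ P) (hPQ : P < Q)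
    (hU : (P - 1) * U = P * X - 1) (hE : M * (U * (Q + 1)) + 1 = (M + 1) * (X * Q))
    (h3 : 2 * Q < (M + 1) * (M + 2)) (hX3 : P ^ 3 ≤ X) : False := by
  have e : X * (M * (Q + 1) * P - (M + 1) * Q * (P - 1)) = M * (Q + 1) - P + 1 := by
    linear_combination (P - 1) * hE - M * (Q + 1) * hU
  obtain ⟨W, hW⟩ : ∃ W, W = M * (Q + 1) * P - (M + 1) * Q * (P - 1) := ⟨_, rfl⟩
  rw [← hW] at e
  have hP3 : 0 < P ^ 3 := by
    have : 0 < P := by linarith
    positivity
  have hX0 : 0 < X := by linarith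
  have h4 : 0 < M * (Q + 1) - P + 1 := by nlinarith
  have h5 : 0 < W := by
    rw [← e] at h4
    exact (mul_pos_iff_of_pos_left hX0).1 h4
  have h6 : X ≤ X * W := by nlinarith
  have h7 : M * (2 * Q) < M * ((M + 1) * (M + 2)) := mul_lt_mul_of_pos_left h3 (by linarith)
  have h8 : (M + 3) ^ 3 ≤ P ^ 3 := pow_le_pow_left₀ (by linarith) hP 3
  nlinarith

/-- `b = 2`, `c ≥ 3` -/
theorem c23 (M P Q Y V : ℤ) (hM : 2 ≤ M) (hP : M + 3 ≤ P) (hPQ : P < Q)
    (hV : (Q - 1) * V = Q * Y - 1)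
    (hE : M * ((P ^ 2 + P + 1) * V) + 1 = (M + 1) * (P ^ 2 * Y))
    (h3 : 2 * Q < (M + 1) * (M + 2)) (hY3 : Q ^ 3 ≤ Y) : False := by
  have e : Y * (M * (P ^ 2 + P + 1) * Q - (M + 1) * P ^ 2 * (Q - 1)) =
      M * (P ^ 2 + P + 1) - Q + 1 := by
    linear_combination (Q - 1) * hE - M * (P ^ 2 + P + 1) * hV
  obtain ⟨W, hW⟩ : ∃ W, W = M * (P ^ 2 + P + 1) * Q - (M + 1) * P ^ 2 * (Q - 1) := ⟨_, rfl⟩
  rw [← hW] at e
  have hQ3 : 0 < Q ^ 3 := by
    have : 0 < Q := by linarith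
    positivity
  have hY0 : 0 < Y := by linarith
  have hPP : (M + 3) * (M + 3) ≤ P ^ 2 := by nlinarith
  have h4 : 0 < M * (P ^ 2 + P + 1) - Q + 1 := by nlinarith
  have h5 : 0 < W := by
    rw [← e] at h4
    exact (mul_pos_iff_of_pos_left hY0).1 h4
  have h6 : Y ≤ Y * W := by nlinarith
  have h7 : P ^ 3 ≤ Q ^ 3 := pow_le_pow_left₀ (by linarith) hPQ.le 3
  have h8 : M * (P ^ 2 + P + 1) ≤ (P - 3) * (P ^ 2 + P + 1) :=
    mul_le_mul_of_nonneg_right (by linarith) (by nlinarith)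
  nlinarith

/-- `b = 2`, `c = 2` -/
theorem c22 (M P Q : ℤ) (hM : 2 ≤ M) (hP : M + 3 ≤ P) (hPQ : P < Q)
    (hE : M * ((P ^ 2 + P + 1) * (Q ^ 2 + Q + 1)) + 1 = (M + 1) * (P ^ 2 * Q ^ 2))
    (hM2 : M % 2 = 0) (hP2 : P % 2 = 1) (hQ2 : Q % 2 = 1) : False := by
  have hPP : P ≤ P ^ 2 := by nlinarith
  have hQQ : Q ≤ Q ^ 2 := by nlinarith
  obtain ⟨h1, e2, h3⟩ := core M P Q (P ^ 2) (Q ^ 2) (P ^ 2 + P + 1) (Q ^ 2 + Q + 1) hM hP hPQ hPP
    hQQ (by ring) (by ring) hE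
  obtain ⟨E, hEd⟩ : ∃ E, E = (M + 1) * (P + Q - 1) - P * Q := ⟨_, rfl⟩
  rw [← hEd] at h1 e2
  have hT : (P + Q - 1) * ((P + Q - 1) - ((M + 1) * E + 3 * (M + 1) + E - 3)) =
      3 * (M + 1) - 2 - E ^ 2 := by
    rw [hEd]
    linear_combination (-1 : ℤ) * hE
  have hE2 : E % 2 = 0 := by
    obtain ⟨m, hm⟩ : ∃ m, M = 2 * m := ⟨M / 2, by omega⟩
    obtain ⟨x, hx⟩ : ∃ x, P = 2 * x + 1 := ⟨P / 2, by omega⟩
    obtain ⟨y, hy⟩ : ∃ y, Q = 2 * y + 1 := ⟨Q / 2, by omega⟩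
    have h4 : E = 2 * (m * (2 * x + 2 * y + 1) + x + y - 2 * x * y - x - y) := by
      rw [hEd, hm, hx, hy]
      ring
    omega
  have hEM : E ≤ M + 1 := by
    by_contra hc
    have hc' : M + 2 ≤ E := by linarith
    have hPQ0 : 0 < P ^ 2 * Q ^ 2 := by
      have h4 : 0 < P := by linarith
      have h5 : 0 < Q := by linarith
      positivity
    have h4 : (M + 2) * (P ^ 2 * Q ^ 2) ≤ E * (P ^ 2 * Q ^ 2) :=
      mul_le_mul_of_nonneg_right hc' hPQ0.le
    have h5 : 0 < (P - 1) * (Q - 1) := mul_pos (by linarith) (by linarith)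
    have h6 : M * P ≤ Q ^ 2 := by nlinarith
    have h7 : M * Q ≤ (M + 1) * P ^ 2 := by
      have h8 : M * (2 * Q) < M * ((M + 1) * (M + 2)) := mul_lt_mul_of_pos_left h3 (by linarith)
      have h9 : (M + 3) * (M + 3) ≤ P ^ 2 := by nlinarith
      have h10 : (M + 1) * ((M + 3) * (M + 3)) ≤ (M + 1) * P ^ 2 :=
        mul_le_mul_of_nonneg_left h9 (by linarith)
      nlinarith
    have h8 : M * (P * P ^ 2) ≤ P ^ 2 * Q ^ 2 := by
      have h9 : 0 < P ^ 2 := by
        have : 0 < P := by linarith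
        positivity
      nlinarith
    have h9 : M * (Q * Q ^ 2) ≤ (M + 1) * (P ^ 2 * Q ^ 2) := by
      have h10 : 0 < Q ^ 2 := by
        have : 0 < Q := by linarith
        positivity
      nlinarith
    nlinarith
  have hEM2 : E * E ≤ (M + 1) * E := mul_le_mul_of_nonneg_right hEM (by linarith)
  rcases lt_trichotomy (E ^ 2) (3 * (M + 1) - 2) with h | h | h
  · have h4 : 0 < (P + Q - 1) - ((M + 1) * E + 3 * (M + 1) + E - 3) := by
      have h5 : 0 < (P + Q - 1) * ((P + Q - 1) - ((M + 1) * E + 3 * (M + 1) + E - 3)) := by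
        rw [hT]; linarith
      exact (mul_pos_iff_of_pos_left (by linarith)).1 h5
    have h5 : (P + Q - 1) ≤ (P + Q - 1) * ((P + Q - 1) - ((M + 1) * E + 3 * (M + 1) + E - 3)) := by
      nlinarith
    rw [hT] at h5
    nlinarith
  · obtain ⟨m, hm⟩ : ∃ m, M = 2 * m := ⟨M / 2, by omega⟩
    obtain ⟨x, hx⟩ : ∃ x, E = 2 * x := ⟨E / 2, by omega⟩
    rw [hm, hx] at h
    have h4 : 4 * (x * x) = 6 * m + 1 := by linarith
    omega
  · have h4 : 0 < ((M + 1) * E + 3 * (M + 1) + E - 3) - (P + Q - 1) := by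
      have h5 : 0 < (P + Q - 1) * (((M + 1) * E + 3 * (M + 1) + E - 3) - (P + Q - 1)) := by
        have h6 : (P + Q - 1) * (((M + 1) * E + 3 * (M + 1) + E - 3) - (P + Q - 1)) =
            E ^ 2 - (3 * (M + 1) - 2) := by linarith
        rw [h6]; linarith
      exact (mul_pos_iff_of_pos_left (by linarith)).1 h5
    have h5 : 0 ≤ ((P + Q - 1) - 1) * ((((M + 1) * E + 3 * (M + 1) + E - 3) - (P + Q - 1)) - 1) :=
      mul_nonneg (by linarith) (by linarith)
    nlinarith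

theorem gsum (x : ℕ) (n : ℕ) : ((x : ℤ) - 1) * ((∑ i ∈ Finset.range (n + 1), x ^ i : ℕ) : ℤ) =
    (x : ℤ) * ((x ^ n : ℕ) : ℤ) - 1 := by
  have h := geom_sum_mul (x : ℤ) (n + 1)
  push_cast
  rw [mul_comm, h]
  ring

/-- two prime factors besides `3` are impossible -/
theorem two (M p q b c a : ℕ) (hM : M + 1 = 3 ^ (a + 1)) (hp : p.Prime) (hq : q.Prime)
    (hp3 : p ≠ 3) (hq3 : q ≠ 3) (hp2 : p ≠ 2) (hq2 : q ≠ 2) (hpq : p < q) (hb : 1 ≤ b)
    (hc : 1 ≤ c)
    (h : M * ((∑ i ∈ Finset.range (b + 1), p ^ i) * ∑ i ∈ Finset.range (c + 1), q ^ i) + 1 =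
      (M + 1) * (p ^ b * q ^ c)) : False := by
  have hM3 : M % 3 = 2 := by
    have h1 : 3 ∣ M + 1 := by rw [hM]; exact dvd_pow_self 3 (Nat.succ_ne_zero a)
    omega
  have hM2 : M % 2 = 0 := by
    have h1 : 3 ^ (a + 1) % 2 = 1 := by rw [Nat.pow_mod]; norm_num
    omega
  have hM0 : 2 ≤ M := by omega
  have hpo : p % 2 = 1 := by
    rcases hp.eq_two_or_odd with h1 | h1
    · exact absurd h1 hp2
    · exact h1
  have hqo : q % 2 = 1 := by
    rcases hq.eq_two_or_odd with h1 | h1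
    · exact absurd h1 hq2
    · exact h1
  have hp30 : p % 3 ≠ 0 := by
    intro h1
    exact hp3 ((Nat.prime_dvd_prime_iff_eq Nat.prime_three hp).1 (Nat.dvd_of_mod_eq_zero h1)).symm
  have hq30 : q % 3 ≠ 0 := by
    intro h1
    exact hq3 ((Nat.prime_dvd_prime_iff_eq Nat.prime_three hq).1 (Nat.dvd_of_mod_eq_zero h1)).symm
  obtain ⟨U, hUd⟩ : ∃ U, U = ∑ i ∈ Finset.range (b + 1), p ^ i := ⟨_, rfl⟩
  obtain ⟨V, hVd⟩ : ∃ V, V = ∑ i ∈ Finset.range (c + 1), q ^ i := ⟨_, rfl⟩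
  have hU := gsum p b
  have hV := gsum q c
  rw [← hUd] at hU h
  rw [← hVd] at hV h
  have hZ : (M : ℤ) * ((U : ℤ) * V) + 1 = ((M : ℤ) + 1) * (((p ^ b : ℕ) : ℤ) * ((q ^ c : ℕ) : ℤ)) := by
    exact_mod_cast h
  -- residues modulo 3
  have hUV : U * V % 3 = 1 := by
    have h1 : (M * (U * V) + 1) % 3 = 0 := by
      rw [h, hM, pow_succ]
      rw [Nat.mul_mod, Nat.mul_mod (3 ^ a) 3]
      simp
    have h2 : M * (U * V) % 3 = 2 * (U * V % 3) % 3 := by rw [Nat.mul_mod, hM3]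
    omega
  -- sizes
  have hq0 : (q : ℤ) ≤ ((q ^ c : ℕ) : ℤ) := by
    exact_mod_cast Nat.le_self_pow (by omega) q
  have hp0 : (p : ℤ) ≤ ((p ^ b : ℕ) : ℤ) := by
    exact_mod_cast Nat.le_self_pow (by omega) p
  have hpb : p ^ b = p * p ^ (b - 1) := by
    rw [← pow_succ']
    congr 1
    omega
  have hMp : M < p := by
    have h1 := low M p ((p ^ (b - 1) : ℕ) : ℤ) ((q ^ c : ℕ) : ℤ) U V q (by positivity)
      (by exact_mod_cast hp.two_le) (by exact_mod_cast hq.two_le)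
      (by exact_mod_cast Nat.one_le_pow _ _ hp.pos) hq0
      (by rw [hU, hpb]; push_cast; ring) hV (by rw [hZ, hpb]; push_cast; ring)
    exact_mod_cast h1
  have hMp2 : p ≠ M + 1 := by
    intro h1
    rw [hM] at h1
    have h2 : 3 ∣ p := by rw [h1]; exact dvd_pow_self 3 (Nat.succ_ne_zero a)
    exact hp3 ((Nat.prime_dvd_prime_iff_eq Nat.prime_three hp).1 h2).symm
  have hMp3 : M + 3 ≤ p := by omega
  have hM' : (2 : ℤ) ≤ M := by exact_mod_cast hM0
  have hP' : (M : ℤ) + 3 ≤ p := by exact_mod_cast hMp3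
  have hPQ' : (p : ℤ) < q := by exact_mod_cast hpq
  obtain ⟨hE1, -, hQs⟩ := core M p q ((p ^ b : ℕ) : ℤ) ((q ^ c : ℕ) : ℤ) U V hM' hP' hPQ' hp0 hq0
    hU hV hZ
  rcases Nat.lt_or_ge c 2 with hc2 | hc2
  · -- `c = 1`
    have hc1 : c = 1 := by omega
    subst hc1
    have hV1 : V = q + 1 := by rw [hVd]; simp [Finset.sum_range_succ]; ring
    have hq31 : q % 3 = 1 := by
      by_contra hcon
      have h1 : V % 3 = 0 := by omega
      rw [Nat.mul_mod, h1, mul_zero] at hUV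
      omega
    have hV3 : V % 3 = 2 := by omega
    have hU3 : U % 3 = 2 := by
      rw [Nat.mul_mod, hV3] at hUV
      omega
    rcases Nat.lt_or_ge b 3 with hb3 | hb3
    · have hb12 : b = 1 ∨ b = 2 := by omega
      rcases hb12 with hb1 | hb2
      · subst hb1
        have hU1 : U = p + 1 := by rw [hUd]; simp [Finset.sum_range_succ]; ring
        have hp31 : p % 3 = 1 := by omega
        have h1 : (p - M) * (q - M) = M ^ 2 + M + 1 := by
          have h2 : M ≤ p := by omega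
          have h3 : M ≤ q := by omega
          zify [h2, h3]
          rw [hU1, hV1] at hZ
          push_cast at hZ
          linear_combination (-1 : ℤ) * hZ
        exact cyc M (p - M) ⟨_, h1.symm⟩ (by omega)
      · subst hb2
        have hU1 : U = p ^ 2 + p + 1 := by rw [hUd]; simp [Finset.sum_range_succ]; ring
        have hcase : p % 3 = 1 ∨ p % 3 = 2 := by omega
        rw [hU1] at hU3
        rcases hcase with h1 | h1
        · have h2 : p ^ 2 % 3 = 1 := by rw [Nat.pow_mod, h1]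
          omega
        · have h2 : p ^ 2 % 3 = 1 := by rw [Nat.pow_mod, h1]
          omega
    · have hX3 : (p : ℤ) ^ 3 ≤ ((p ^ b : ℕ) : ℤ) := by
        exact_mod_cast Nat.pow_le_pow_right hp.pos hb3
      refine c31 M p q ((p ^ b : ℕ) : ℤ) U hM' hP' hPQ' hU ?_ hQs hX3
      rw [hV1] at hZ
      push_cast at hZ ⊢
      linear_combination hZ
  · have hY2 : (q : ℤ) ^ 2 ≤ ((q ^ c : ℕ) : ℤ) := by
      exact_mod_cast Nat.pow_le_pow_right hq.pos hc2
    rcases Nat.lt_or_ge b 3 with hb3 | hb3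
    · have hb12 : b = 1 ∨ b = 2 := by omega
      rcases hb12 with hb1 | hb2
      · subst hb1
        have hU1 : U = p + 1 := by rw [hUd]; simp [Finset.sum_range_succ]; ring
        refine c12 M p q ((q ^ c : ℕ) : ℤ) V hM' hP' hPQ' hV ?_ hQs hY2
        rw [hU1] at hZ
        push_cast at hZ ⊢
        linear_combination hZ
      · subst hb2
        have hU1 : U = p ^ 2 + p + 1 := by rw [hUd]; simp [Finset.sum_range_succ]; ring
        rcases Nat.lt_or_ge c 3 with hc3 | hc3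
        · have hc22 : c = 2 := by omega
          subst hc22
          have hV1 : V = q ^ 2 + q + 1 := by rw [hVd]; simp [Finset.sum_range_succ]; ring
          refine c22 M p q hM' hP' hPQ' ?_ (by omega) (by omega) (by omega)
          rw [hU1, hV1] at hZ
          push_cast at hZ ⊢
          linear_combination hZ
        · have hY3 : (q : ℤ) ^ 3 ≤ ((q ^ c : ℕ) : ℤ) := by
            exact_mod_cast Nat.pow_le_pow_right hq.pos hc3
          refine c23 M p q ((q ^ c : ℕ) : ℤ) V hM' hP' hPQ' hV ?_ hQs hY3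
          rw [hU1] at hZ
          push_cast at hZ ⊢
          linear_combination hZ
    · have hX3 : (p : ℤ) ^ 3 ≤ ((p ^ b : ℕ) : ℤ) := by
        exact_mod_cast Nat.pow_le_pow_right hp.pos hb3
      refine c32 M p q ((p ^ b : ℕ) : ℤ) ((q ^ c : ℕ) : ℤ) U V hM' hP' hPQ' hp0 hq0 hU hV hZ ?_
        hX3 hY2
      -- parity
      obtain ⟨m, hm⟩ : ∃ m, M = 2 * m := ⟨M / 2, by omega⟩
      obtain ⟨x, hx⟩ : ∃ x, p = 2 * x + 1 := ⟨p / 2, by omega⟩
      obtain ⟨y, hy⟩ : ∃ y, q = 2 * y + 1 := ⟨q / 2, by omega⟩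
      have h4 : ((M : ℤ) + 1) * ((p : ℤ) + q - 1) - (p : ℤ) * q =
          2 * ((m : ℤ) * (2 * x + 2 * y + 1) + x + y - 2 * x * y - x - y) := by
        rw [hm, hx, hy]
        push_cast
        ring
      omega

/-- one prime factor besides `3` is impossible -/
theorem one (M p b a : ℕ) (hM : M + 1 = 3 ^ (a + 1)) (hp : p.Prime) (hp3 : p ≠ 3) (hb : 1 ≤ b)
    (h : M * (∑ i ∈ Finset.range (b + 1), p ^ i) + 1 = (M + 1) * p ^ b) : False := by
  obtain ⟨U, hUd⟩ : ∃ U, U = ∑ i ∈ Finset.range (b + 1), p ^ i := ⟨_, rfl⟩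
  have hU := gsum p b
  rw [← hUd] at hU h
  have hZ : (M : ℤ) * U + 1 = ((M : ℤ) + 1) * ((p ^ b : ℕ) : ℤ) := by exact_mod_cast h
  have hp0 : (p : ℤ) ≤ ((p ^ b : ℕ) : ℤ) := by
    exact_mod_cast Nat.le_self_pow (by omega) p
  have h2 : (2 : ℤ) ≤ p := by exact_mod_cast hp.two_le
  have h3 : ((p : ℤ) - M - 1) * (((p ^ b : ℕ) : ℤ) - 1) = 0 := by
    linear_combination (-1 : ℤ) * ((p : ℤ) - 1) * hZ + (M : ℤ) * hU
  rcases mul_eq_zero.1 h3 with h4 | h4
  · have h5 : p = M + 1 := by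
      have : (p : ℤ) = ((M + 1 : ℕ) : ℤ) := by push_cast; linarith
      exact_mod_cast this
    rw [hM] at h5
    have h6 : 3 ∣ p := by rw [h5]; exact dvd_pow_self 3 (Nat.succ_ne_zero a)
    exact hp3 ((Nat.prime_dvd_prime_iff_eq Nat.prime_three hp).1 h6).symm
  · linarith

/-- the only even solution is `2` -/
theorem odd_of (n : ℕ) (hn : 0 < n) (h2 : n ≠ 2) (h : ∑ d ∈ n.properDivisors, d = n / 2) :
    Odd n := by
  rcases Nat.even_or_odd n with he | ho
  · exfalso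
    obtain ⟨m, hm⟩ := he
    have hm1 : 1 < m := by omega
    have hsub : ({1, m} : Finset ℕ) ⊆ n.properDivisors := by
      intro x hx
      simp only [Finset.mem_insert, Finset.mem_singleton] at hx
      rw [Nat.mem_properDivisors]
      rcases hx with rfl | rfl
      · exact ⟨one_dvd _, by omega⟩
      · exact ⟨⟨2, by omega⟩, by omega⟩
    have h1 := Finset.sum_le_sum_of_subset (f := fun d : ℕ => d) hsub
    rw [Finset.sum_pair (by omega)] at h1
    omega
  · exact ho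

/-- the equation in terms of `S = σ(n)` -/
theorem eqn (n : ℕ) (ho : Odd n) (h : ∑ d ∈ n.properDivisors, d = n / 2) :
    2 * (∑ d ∈ n.divisors, d) + 1 = 3 * n := by
  have h1 := Nat.sum_divisors_eq_sum_properDivisors_add_self (n := n)
  obtain ⟨k, hk⟩ := ho
  omega

/-- the equation, with the power of `3` separated -/
theorem sep (n : ℕ) (hn : 0 < n) (h2 : n ≠ 2) (h : ∑ d ∈ n.properDivisors, d = n / 2) :
    n = 3 ^ n.factorization 3 * ∏ p ∈ n.primeFactors.erase 3, p ^ n.factorization p ∧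
    (∑ k ∈ Finset.range (n.factorization 3 + 1), 3 ^ k) * 2 + 1 = 3 ^ (n.factorization 3 + 1) ∧
    (∑ k ∈ Finset.range (n.factorization 3 + 1), 3 ^ k) * 2 * ∏ p ∈ n.primeFactors.erase 3,
        (∑ k ∈ Finset.range (n.factorization p + 1), p ^ k) + 1 =
        3 ^ (n.factorization 3 + 1) * ∏ p ∈ n.primeFactors.erase 3, p ^ n.factorization p := by
  have ho := odd_of n hn h2 h
  have hS := eqn n ho h
  have hsplit : ∀ F : ℕ → ℕ, (3 ∉ n.primeFactors → F 3 = 1) →
      ∏ p ∈ n.primeFactors, F p = F 3 * ∏ p ∈ n.primeFactors.erase 3, F p := by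
    intro F hF
    by_cases h3 : 3 ∈ n.primeFactors
    · exact (Finset.mul_prod_erase _ _ h3).symm
    · rw [Finset.erase_eq_of_notMem h3, hF h3, one_mul]
  have h30 : 3 ∉ n.primeFactors → n.factorization 3 = 0 := by
    intro h3
    rw [← Nat.support_factorization, Finsupp.notMem_support_iff] at h3
    exact h3
  have hσ : ∑ d ∈ n.divisors, d = (∑ k ∈ Finset.range (n.factorization 3 + 1), 3 ^ k) *
      ∏ p ∈ n.primeFactors.erase 3, ∑ k ∈ Finset.range (n.factorization p + 1), p ^ k := by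
    rw [Nat.sum_divisors hn.ne']
    apply hsplit (fun p => ∑ k ∈ Finset.range (n.factorization p + 1), p ^ k)
    intro h3
    show ∑ k ∈ Finset.range (n.factorization 3 + 1), 3 ^ k = 1
    rw [h30 h3]
    simp
  have hnn : n = 3 ^ n.factorization 3 * ∏ p ∈ n.primeFactors.erase 3, p ^ n.factorization p := by
    have h4 : ∏ p ∈ n.primeFactors, p ^ n.factorization p = n :=
      Nat.prod_factorization_pow_eq_self hn.ne'
    have h5 := hsplit (fun p => p ^ n.factorization p) (by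
      intro h3
      show 3 ^ n.factorization 3 = 1
      rw [h30 h3, pow_zero])
    rw [h4] at h5
    exact h5
  have hG : (∑ k ∈ Finset.range (n.factorization 3 + 1), 3 ^ k) * 2 + 1 =
      3 ^ (n.factorization 3 + 1) := by
    have := Nat.geomSum_eq (le_refl 2 |>.trans (by norm_num : 2 ≤ 3)) (n.factorization 3 + 1)
    have h6 := Nat.one_le_pow (n.factorization 3 + 1) 3 (by norm_num)
    have h7 : 2 ∣ 3 ^ (n.factorization 3 + 1) - 1 := by
      have h8 : 3 ^ (n.factorization 3 + 1) % 2 = 1 := by rw [Nat.pow_mod]; norm_num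
      omega
    rw [this]
    omega
  refine ⟨hnn, hG, ?_⟩
  obtain ⟨a, ha⟩ : ∃ a, a = n.factorization 3 := ⟨_, rfl⟩
  obtain ⟨P, hP⟩ : ∃ P, P = ∏ p ∈ n.primeFactors.erase 3, p ^ n.factorization p := ⟨_, rfl⟩
  obtain ⟨R, hR⟩ : ∃ R, R = ∏ p ∈ n.primeFactors.erase 3,
    ∑ k ∈ Finset.range (n.factorization p + 1), p ^ k := ⟨_, rfl⟩
  rw [← hR, ← hP, ← ha]
  rw [hσ, ← ha, ← hR] at hS
  rw [← hP, ← ha] at hnn
  calc (∑ k ∈ Finset.range (a + 1), 3 ^ k) * 2 * R + 1
      = 2 * ((∑ k ∈ Finset.range (a + 1), 3 ^ k) * R) + 1 := by ring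
    _ = 3 * n := hS
    _ = 3 * (3 ^ a * P) := by rw [← hnn]
    _ = 3 ^ (a + 1) * P := by ring

/-- at least three prime factors besides `3` -/
theorem three (n : ℕ) (hn : 0 < n) (h2 : n ≠ 2) (h3 : ∀ k : ℕ, n ≠ 3 ^ k)
    (h : ∑ d ∈ n.properDivisors, d = n / 2) : 3 ≤ (n.primeFactors.erase 3).card := by
  obtain ⟨hnn, hG, hmul⟩ := sep n hn h2 h
  have ho := odd_of n hn h2 h
  obtain ⟨M, hM⟩ : ∃ M, M = (∑ k ∈ Finset.range (n.factorization 3 + 1), 3 ^ k) * 2 := ⟨_, rfl⟩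
  rw [← hM] at hG hmul
  have hpr : ∀ p ∈ n.primeFactors.erase 3, p.Prime ∧ p ≠ 3 ∧ p ≠ 2 ∧ 1 ≤ n.factorization p := by
    intro p hp
    have h1 := Finset.mem_of_mem_erase hp
    have hpp := Nat.prime_of_mem_primeFactors h1
    refine ⟨hpp, Finset.ne_of_mem_erase hp, ?_, ?_⟩
    · rintro rfl
      have h4 := Nat.dvd_of_mem_primeFactors h1
      obtain ⟨k, hk⟩ := ho
      omega
    · rw [← Nat.support_factorization, Finsupp.mem_support_iff] at h1
      omega
  by_contra hcon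
  have hc : (n.primeFactors.erase 3).card = 0 ∨ (n.primeFactors.erase 3).card = 1 ∨
      (n.primeFactors.erase 3).card = 2 := by omega
  rcases hc with hc | hc | hc
  · rw [Finset.card_eq_zero] at hc
    rw [hc, Finset.prod_empty, mul_one] at hnn
    exact h3 _ hnn
  · obtain ⟨p, hp⟩ := Finset.card_eq_one.1 hc
    obtain ⟨h4, h5, -, h7⟩ := hpr p (by rw [hp]; exact Finset.mem_singleton_self p)
    rw [hp, Finset.prod_singleton, Finset.prod_singleton, ← hG] at hmul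
    exact one M p (n.factorization p) (n.factorization 3) hG h4 h5 h7 hmul
  · obtain ⟨p, q, hpq, hpq2⟩ := Finset.card_eq_two.1 hc
    obtain ⟨h4, h5, h6, h7⟩ := hpr p (by rw [hpq2]; simp)
    obtain ⟨k4, k5, k6, k7⟩ := hpr q (by rw [hpq2]; simp)
    rw [hpq2, Finset.prod_pair hpq, Finset.prod_pair hpq, ← hG] at hmul
    rcases Nat.lt_or_ge p q with hlt | hge
    · exact two M p q (n.factorization p) (n.factorization q) (n.factorization 3) hG h4 k4 h5 k5
        h6 k6 hlt h7 k7 hmul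
    · have hlt : q < p := lt_of_le_of_ne hge (Ne.symm hpq)
      refine two M q p (n.factorization q) (n.factorization p) (n.factorization 3) hG k4 h4 k5 h5
        k6 h6 hlt k7 h7 ?_
      rw [mul_comm (∑ i ∈ Finset.range (n.factorization q + 1), q ^ i),
        mul_comm (q ^ n.factorization q)]
      exact hmul

end Pool.Agent.H22.BDD.Three
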